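import Mathlib

/-!
# Interpolation with bounded weights

`x s` is the coefficient of `t^s` in a truncated power series `x(t)`, `y = x 1`. Every sequence `u` of
coefficients is, after multiplication with `y^(2k)` and modulo `t^(k+1)`, a combination of `1, x(t), .., x(t)^k`
with coefficients of bounded weight.
-/

set_option autoImplicit false

open Polynomial

namespace Pool.Agent.H36.UG

/-- A multiplicative increasing filtration of a ring. -/
structure Fil (R : Type*) [CommRing R] where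
  F : ℕ → AddSubgroup R
  one : (1 : R) ∈ F 0
  mono : ∀ {i j : ℕ}, i ≤ j → F i ≤ F j
  mul : ∀ {i j : ℕ} {a b : R}, a ∈ F i → b ∈ F j → a * b ∈ F (i + j)

namespace Fil

variable {R : Type*} [CommRing R] (Fl : Fil R)

theorem natCast (m : ℕ) : (m : R) ∈ Fl.F 0 := by
  have h := (Fl.F 0).nsmul_mem Fl.one m
  rwa [nsmul_eq_mul, mul_one] at h

theorem pow {i : ℕ} {a : R} (ha : a ∈ Fl.F i) (m : ℕ) : a ^ m ∈ Fl.F (m * i) := by
  induction m with
  | zero => simpa using Fl.one
  | succ m ih =>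
    rw [pow_succ, Nat.succ_mul]
    exact Fl.mul ih ha

theorem sum {ι : Type*} (s : Finset ι) {i : ℕ} {f : ι → R} (h : ∀ r ∈ s, f r ∈ Fl.F i) :
    ∑ r ∈ s, f r ∈ Fl.F i := (Fl.F i).sum_mem h

theorem prod {ι : Type*} (s : Finset ι) {i : ι → ℕ} {f : ι → R} (h : ∀ r ∈ s, f r ∈ Fl.F (i r)) :
    ∏ r ∈ s, f r ∈ Fl.F (∑ r ∈ s, i r) := by
  classical
  induction s using Finset.induction_on with
  | empty => simpa using Fl.one
  | insert a s ha ih =>
    rw [Finset.prod_insert ha, Finset.sum_insert ha]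
    exact Fl.mul (h a (Finset.mem_insert_self a s)) (ih fun r hr => h r (Finset.mem_insert_of_mem hr))

/-- The coefficient of `t^i` lies in `F (c i)`. -/
def Iso (c w : ℕ) (P : R[X]) : Prop := ∀ i, P.coeff i ∈ Fl.F (w + c * i)

theorem Iso.mul' {c w w' : ℕ} {P Q : R[X]} (hP : Fl.Iso c w P) (hQ : Fl.Iso c w' Q) :
    Fl.Iso c (w + w') (P * Q) := fun i => by
  rw [coeff_mul]
  refine Fl.sum _ fun p hp => ?_
  have h := Fl.mul (hP p.1) (hQ p.2)
  have h1 : w + c * p.1 + (w' + c * p.2) = w + w' + c * i := by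
    rw [← (Finset.HasAntidiagonal.mem_antidiagonal.1 hp)]
    ring
  rwa [h1] at h

theorem Iso.one' (c : ℕ) : Fl.Iso c 0 (1 : R[X]) := fun i => by
  rw [coeff_one]
  split_ifs
  · exact Fl.mono (Nat.zero_le _) Fl.one
  · exact (Fl.F _).zero_mem

theorem Iso.pow' {c w : ℕ} {P : R[X]} (hP : Fl.Iso c w P) (m : ℕ) : Fl.Iso c (m * w) (P ^ m) := by
  induction m with
  | zero => simpa using Iso.one' Fl c
  | succ m ih =>
    rw [pow_succ, Nat.succ_mul]
    exact Iso.mul' Fl ih hP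

end Fil

section

variable {R : Type*} [CommRing R]

/-- `x(t)` truncated. -/
noncomputable def ser (k : ℕ) (x : ℕ → R) : R[X] := ∑ s ∈ Finset.range (k + 1), C (x s) * X ^ s

/-- `x(t) - x(0)` -/
noncomputable def zser (k : ℕ) (x : ℕ → R) : R[X] := ∑ s ∈ Finset.Icc 1 k, C (x s) * X ^ s

theorem ser_eq (k : ℕ) (x : ℕ → R) : ser k x = C (x 0) + zser k x := by
  unfold ser zser
  rw [Finset.range_eq_Ico, Finset.sum_eq_sum_Ico_succ_bot (Nat.succ_pos k), pow_zero, mul_one]
  rfl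

/-- `1 + ∑ y^(s-1) x_{s+1} v^s`, `1 ≤ s < k` -/
noncomputable def hser (k : ℕ) (x : ℕ → R) : R[X] := 1 + ∑ s ∈ Finset.Ico 1 k, C (x 1 ^ (s - 1) * x (s + 1)) * X ^ s

theorem hser_coeff_zero (k : ℕ) (x : ℕ → R) : (hser k x).coeff 0 = 1 := by
  unfold hser
  rw [coeff_add, coeff_one_zero, finsetSum_coeff, Finset.sum_eq_zero, add_zero]
  intro s hs
  rw [coeff_C_mul_X_pow, if_neg]
  have := (Finset.mem_Ico.1 hs).1
  omega

theorem hser_iso (Fl : Fil R) (k : ℕ) (x : ℕ → R) (hx : ∀ s, s ≤ k → x s ∈ Fl.F (s + 1)) (hk : 1 ≤ k) :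
    Fl.Iso 3 0 (hser k x) := fun i => by
  unfold hser
  rw [coeff_add]
  refine (Fl.F _).add_mem (Fil.Iso.one' Fl 3 i) ?_
  rw [finsetSum_coeff]
  refine Fl.sum _ fun s hs => ?_
  rw [coeff_C_mul_X_pow]
  obtain ⟨h1, h2⟩ := Finset.mem_Ico.1 hs
  split_ifs with h
  · have h3 := Fl.mul (Fl.pow (hx 1 hk) (s - 1)) (hx (s + 1) (by omega))
    exact Fl.mono (by omega) h3
  · exact (Fl.F _).zero_mem

theorem zser_comp (k : ℕ) (hk : 1 ≤ k) (x : ℕ → R) :
    (zser k x).comp (C (x 1) * X) = C (x 1 ^ 2) * (X * hser k x) := by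
  unfold zser hser
  rw [← Finset.sum_Ioc_add_eq_sum_Icc hk]
  simp only [Polynomial.sum_comp, add_comp, mul_comp, C_comp, X_pow_comp, pow_one, X_comp]
  rw [mul_add, mul_add, mul_one]
  rw [add_comm]
  congr 1
  · rw [pow_two, map_mul]
    ring
  · rw [Finset.mul_sum, Finset.mul_sum]
    have h1 : Finset.Ioc 1 k = (Finset.Ico 1 k).image (· + 1) := by
      ext s
      simp only [Finset.mem_Ioc, Finset.mem_image, Finset.mem_Ico]
      constructor
      · intro h
        exact ⟨s - 1, by omega, by omega⟩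
      · rintro ⟨a, ha, rfl⟩
        omega
    rw [h1, Finset.sum_image fun a _ b _ hab => Nat.succ_injective hab]
    refine Finset.sum_congr rfl fun s hs => ?_
    obtain ⟨s, rfl⟩ : ∃ j, s = j + 1 := ⟨s - 1, by have := (Finset.mem_Ico.1 hs).1; omega⟩
    rw [Nat.add_sub_cancel, mul_pow, map_mul, map_pow, map_pow, Nat.succ_eq_add_one]
    ring

/-- the matrix `M j r = [v^j] (v h)^r` -/
theorem coeff_pow_Xh_lt (h : R[X]) {j r : ℕ} (hjr : j < r) : ((X * h) ^ r).coeff j = 0 := by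
  rw [mul_pow, coeff_X_pow_mul', if_neg (by omega)]

theorem coeff_pow_Xh_self {h : R[X]} (h0 : h.coeff 0 = 1) (r : ℕ) : ((X * h) ^ r).coeff r = 1 := by
  rw [mul_pow, coeff_X_pow_mul', if_pos le_rfl, Nat.sub_self, coeff_zero_eq_eval_zero, eval_pow,
    ← coeff_zero_eq_eval_zero, h0, one_pow]

theorem coeff_pow_Xh_mem (Fl : Fil R) {h : R[X]} (hh : Fl.Iso 3 0 h) {j r : ℕ} (hjr : r ≤ j) :
    ((X * h) ^ r).coeff j ∈ Fl.F (3 * (j - r)) := by
  rw [mul_pow, coeff_X_pow_mul', if_pos hjr]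
  have := Fil.Iso.pow' Fl hh r (j - r)
  simpa using this

/-- `y^j [t^j] z^r = y^(2r) [v^j] (v h)^r` -/
theorem coeff_zser_pow (k : ℕ) (hk : 1 ≤ k) (x : ℕ → R) (j r : ℕ) :
    x 1 ^ j * ((zser k x) ^ r).coeff j = x 1 ^ (2 * r) * ((X * hser k x) ^ r).coeff j := by
  have h : ((zser k x ^ r).comp (C (x 1) * X)).coeff j = ((C (x 1 ^ 2) * (X * hser k x)) ^ r).coeff j := by
    rw [Polynomial.pow_comp, zser_comp k hk x]
  rw [comp_C_mul_X_coeff, mul_pow, ← C_pow, coeff_C_mul, ← pow_mul] at h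
  rw [mul_comm, h]

/-- The triangular solution. -/
noncomputable def tri (M : ℕ → ℕ → R) (v : ℕ → R) : ℕ → R
  | j => v j - ∑ r : Fin j, M j r * tri M v r
decreasing_by exact r.2

theorem tri_eq (M : ℕ → ℕ → R) (hM : ∀ j, M j j = 1) (v : ℕ → R) (j : ℕ) :
    ∑ r ∈ Finset.range (j + 1), M j r * tri M v r = v j := by
  rw [Finset.sum_range_succ, hM, one_mul]
  conv_lhs => rw [tri.eq_1]
  rw [Fin.sum_univ_eq_sum_range (fun r => M j r * tri M v r) j]
  ring

theorem tri_mem (Fl : Fil R) (M : ℕ → ℕ → R) (v : ℕ → R) (w k : ℕ)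
    (hM : ∀ j r, r ≤ j → M j r ∈ Fl.F (3 * (j - r))) (hv : ∀ j ≤ k, v j ∈ Fl.F (3 * j + w)) :
    ∀ j ≤ k, tri M v j ∈ Fl.F (3 * j + w) := by
  intro j
  induction j using Nat.strong_induction_on with
  | _ j ih =>
    intro hj
    rw [tri.eq_1]
    refine (Fl.F _).sub_mem (hv j hj) (Fl.sum _ fun r _ => ?_)
    have h1 := Fl.mul (hM j r r.2.le) (ih r r.2 (by have := r.2; omega))
    have h2 : 3 * (j - (r : ℕ)) + (3 * (r : ℕ) + w) = 3 * j + w := by
      have := r.2
      omega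
    rwa [h2] at h1

variable [IsDomain R]

/-- Interpolation in the powers of `x(t) - x(0)`. -/
theorem interp_z (Fl : Fil R) (k : ℕ) (hk : 1 ≤ k) (x : ℕ → R) (hy : x 1 ≠ 0)
    (hx : ∀ s, s ≤ k → x s ∈ Fl.F (s + 1)) (u : ℕ → R) (w : ℕ) (hu : ∀ s ≤ k, u s ∈ Fl.F (w + s)) :
    ∃ c : ℕ → R, (∀ r ≤ k, c r ∈ Fl.F (4 * k - r + w)) ∧
      ∀ j ≤ k, (∑ r ∈ Finset.range (k + 1), C (c r) * zser k x ^ r).coeff j = x 1 ^ (2 * k) * u j := by
  set M : ℕ → ℕ → R := fun j r => ((X * hser k x) ^ r).coeff j with hM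
  set b : ℕ → R := tri M (fun j => x 1 ^ j * u j) with hb
  have hbm : ∀ j ≤ k, b j ∈ Fl.F (3 * j + w) := by
    refine tri_mem Fl M _ w k (fun j r hr => coeff_pow_Xh_mem Fl (hser_iso Fl k x hx hk) hr) fun j hj => ?_
    have h1 := Fl.mul (Fl.pow (hx 1 hk) j) (hu j hj)
    have h2 : j * (1 + 1) + (w + j) = 3 * j + w := by ring
    rwa [h2] at h1
  have hbe : ∀ j, ∑ r ∈ Finset.range (j + 1), M j r * b r = x 1 ^ j * u j :=
    tri_eq M (fun j => coeff_pow_Xh_self (hser_coeff_zero k x) j) _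
  refine ⟨fun r => x 1 ^ (2 * k - 2 * r) * b r, fun r hr => ?_, fun j hj => ?_⟩
  · have h1 := Fl.mul (Fl.pow (hx 1 hk) (2 * k - 2 * r)) (hbm r hr)
    exact Fl.mono (by omega) h1
  · have hyj : x 1 ^ j ≠ 0 := pow_ne_zero _ hy
    refine mul_left_cancel₀ hyj ?_
    rw [finsetSum_coeff, Finset.mul_sum]
    have h1 : ∀ r ∈ Finset.range (k + 1), x 1 ^ j * (C (x 1 ^ (2 * k - 2 * r) * b r) * zser k x ^ r).coeff j =
        x 1 ^ (2 * k) * (M j r * b r) := by
      intro r hr
      have hr' : r ≤ k := Nat.lt_succ_iff.1 (Finset.mem_range.1 hr)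
      rw [coeff_C_mul, mul_left_comm, coeff_zser_pow k hk x j r, hM]
      have h2 : x 1 ^ (2 * k) = x 1 ^ (2 * k - 2 * r) * x 1 ^ (2 * r) := by
        rw [← pow_add]
        congr 1
        omega
      rw [h2]
      ring
    rw [Finset.sum_congr rfl h1, ← Finset.mul_sum]
    have h3 : ∑ r ∈ Finset.range (k + 1), M j r * b r = ∑ r ∈ Finset.range (j + 1), M j r * b r := by
      symm
      refine Finset.sum_subset (Finset.range_mono (by omega)) fun r _ hr => ?_
      have : j < r := by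
        by_contra hcon
        exact hr (Finset.mem_range.2 (by omega))
      rw [hM]
      simp only
      rw [coeff_pow_Xh_lt _ this, zero_mul]
    rw [h3, hbe]
    ring

/-- **Interpolation.** -/
theorem interp (Fl : Fil R) (k : ℕ) (hk : 1 ≤ k) (x : ℕ → R) (hy : x 1 ≠ 0)
    (hx : ∀ s, s ≤ k → x s ∈ Fl.F (s + 1)) (u : ℕ → R) (w : ℕ) (hu : ∀ s ≤ k, u s ∈ Fl.F (w + s)) :
    ∃ e : ℕ → R, (∀ r ≤ k, e r ∈ Fl.F (4 * k + w)) ∧
      ∀ j ≤ k, (∑ r ∈ Finset.range (k + 1), C (e r) * ser k x ^ r).coeff j = x 1 ^ (2 * k) * u j := by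
  obtain ⟨c, hc1, hc2⟩ := interp_z Fl k hk x hy hx u w hu
  refine ⟨fun i => ∑ r ∈ Finset.range (k + 1), c r * ((-(x 0)) ^ (r - i) * (r.choose i : R)), fun i hi => ?_,
    fun j hj => ?_⟩
  · refine Fl.sum _ fun r hr => ?_
    have hr' : r ≤ k := Nat.lt_succ_iff.1 (Finset.mem_range.1 hr)
    rcases lt_or_ge r i with h | h
    · rw [Nat.choose_eq_zero_of_lt h, Nat.cast_zero, mul_zero, mul_zero]
      exact (Fl.F _).zero_mem
    · have h1 := Fl.mul (hc1 r hr') (Fl.mul (Fl.pow ((Fl.F _).neg_mem (hx 0 (Nat.zero_le _))) (r - i))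
        (Fl.natCast (r.choose i)))
      exact Fl.mono (by omega) h1
  · rw [← hc2 j hj]
    congr 1
    have h1 : ∀ r, zser k x ^ r = ∑ i ∈ Finset.range (k + 1), C ((-(x 0)) ^ (r - i) * (r.choose i : R)) * ser k x ^ i ∨
        k < r := by
      intro r
      rcases le_or_gt r k with h | h
      · left
        have h2 : zser k x = ser k x + C (-(x 0)) := by
          rw [ser_eq, map_neg]
          ring
        rw [h2, add_pow]
        have h3 : ∑ i ∈ Finset.range (k + 1), C ((-(x 0)) ^ (r - i) * (r.choose i : R)) * ser k x ^ i =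
            ∑ i ∈ Finset.range (r + 1), C ((-(x 0)) ^ (r - i) * (r.choose i : R)) * ser k x ^ i := by
          symm
          refine Finset.sum_subset (Finset.range_mono (by omega)) fun i _ hi => ?_
          have : r < i := by
            by_contra hcon
            exact hi (Finset.mem_range.2 (by omega))
          rw [Nat.choose_eq_zero_of_lt this, Nat.cast_zero, mul_zero, map_zero, zero_mul]
        rw [h3]
        refine Finset.sum_congr rfl fun i _ => ?_
        rw [map_mul, map_pow, map_natCast]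
        ring
      · right
        exact h
    have h4 : ∑ r ∈ Finset.range (k + 1), C (c r) * zser k x ^ r =
        ∑ r ∈ Finset.range (k + 1), ∑ i ∈ Finset.range (k + 1),
          C (c r * ((-(x 0)) ^ (r - i) * (r.choose i : R))) * ser k x ^ i := by
      refine Finset.sum_congr rfl fun r hr => ?_
      rcases h1 r with h | h
      · rw [h, Finset.mul_sum]
        refine Finset.sum_congr rfl fun i _ => ?_
        rw [map_mul (C : R →+* R[X]) (c r)]
        ring
      · have := Finset.mem_range.1 hr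
        omega
    rw [h4, Finset.sum_comm]
    refine Finset.sum_congr rfl fun i _ => ?_
    rw [map_sum, Finset.sum_mul]

/-- Uniqueness. -/
theorem interp_unique (k : ℕ) (x : ℕ → R) (hk : 1 ≤ k) (hy : x 1 ≠ 0) (g : ℕ → R)
    (h : ∀ j ≤ k, (∑ r ∈ Finset.range (k + 1), C (g r) * ser k x ^ r).coeff j = 0) : ∀ r ≤ k, g r = 0 := by
  set P : R[X] := ∑ r ∈ Finset.range (k + 1), C (g r) * X ^ r with hP
  set Q : R[X] := P.comp (X + C (x 0)) with hQ
  have hPd : P.natDegree ≤ k := by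
    rw [hP]
    refine natDegree_sum_le_of_forall_le _ _ fun r hr => ?_
    exact (natDegree_C_mul_X_pow_le _ _).trans (Nat.lt_succ_iff.1 (Finset.mem_range.1 hr))
  have hQd : Q.natDegree ≤ k := by
    rw [hQ, natDegree_comp]
    calc P.natDegree * (X + C (x 0)).natDegree ≤ P.natDegree * 1 := by
          rw [natDegree_X_add_C]
      _ ≤ k := by omega
  have h1 : ∑ r ∈ Finset.range (k + 1), C (g r) * ser k x ^ r = ∑ i ∈ Finset.range (k + 1), C (Q.coeff i) * zser k x ^ i := by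
    have h2 : ∑ r ∈ Finset.range (k + 1), C (g r) * ser k x ^ r = P.comp (ser k x) := by
      rw [hP]
      simp only [Polynomial.sum_comp, mul_comp, C_comp, X_pow_comp]
    have h3 : ser k x = (X + C (x 0)).comp (zser k x) := by
      rw [ser_eq, add_comp, X_comp, C_comp, add_comm]
    rw [h2, h3, ← comp_assoc, ← hQ]
    conv_lhs => rw [Q.as_sum_range_C_mul_X_pow' (Nat.lt_succ_iff.2 hQd)]
    simp only [Polynomial.sum_comp, mul_comp, C_comp, X_pow_comp]
  have hz0 : ∀ i j, j < i → (zser k x ^ i).coeff j = 0 := by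
    intro i j hij
    have h2 : zser k x = X * (∑ s ∈ Finset.Icc 1 k, C (x s) * X ^ (s - 1)) := by
      unfold zser
      rw [Finset.mul_sum]
      refine Finset.sum_congr rfl fun s hs => ?_
      obtain ⟨s, rfl⟩ : ∃ j, s = j + 1 := ⟨s - 1, by have := (Finset.mem_Icc.1 hs).1; omega⟩
      rw [Nat.add_sub_cancel, pow_succ]
      ring
    rw [h2]
    exact coeff_pow_Xh_lt _ hij
  have hzz : ∀ i, (zser k x ^ i).coeff i = x 1 ^ i := by
    intro i
    have h2 : zser k x = X * (∑ s ∈ Finset.Icc 1 k, C (x s) * X ^ (s - 1)) := by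
      unfold zser
      rw [Finset.mul_sum]
      refine Finset.sum_congr rfl fun s hs => ?_
      obtain ⟨s, rfl⟩ : ∃ j, s = j + 1 := ⟨s - 1, by have := (Finset.mem_Icc.1 hs).1; omega⟩
      rw [Nat.add_sub_cancel, pow_succ]
      ring
    rw [h2, mul_pow, coeff_X_pow_mul', if_pos le_rfl, Nat.sub_self, coeff_zero_eq_eval_zero, eval_pow]
    congr 1
    rw [eval_finsetSum, Finset.sum_eq_single 1]
    · simp
    · intro s hs hs1
      have := (Finset.mem_Icc.1 hs).1
      rw [eval_mul, eval_pow, eval_X, zero_pow (by omega), mul_zero]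
    · intro hcon
      exact absurd (Finset.mem_Icc.2 ⟨le_rfl, hk⟩) hcon
  have hQ0 : ∀ j ≤ k, Q.coeff j = 0 := by
    intro j
    induction j using Nat.strong_induction_on with
    | _ j ih =>
      intro hj
      have h2 := h j hj
      rw [h1, finsetSum_coeff, Finset.sum_eq_single j] at h2
      · rw [coeff_C_mul, hzz] at h2
        exact (mul_eq_zero.1 h2).resolve_right (pow_ne_zero _ hy)
      · intro i hi hij
        rw [coeff_C_mul]
        rcases lt_or_gt_of_ne hij with h3 | h3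
        · rw [ih i h3 (by omega), zero_mul]
        · rw [hz0 i j h3, mul_zero]
      · intro hcon
        exact absurd (Finset.mem_range.2 (by omega)) hcon
  have hQz : Q = 0 := by
    ext i
    rcases le_or_gt i k with hi | hi
    · rw [hQ0 i hi, coeff_zero]
    · rw [coeff_eq_zero_of_natDegree_lt (by omega), coeff_zero]
  have hPz : P = 0 := by
    have h2 : Q.comp (X - C (x 0)) = P := by
      rw [hQ, comp_assoc, add_comp, X_comp, C_comp, sub_add_cancel, comp_X]
    rw [← h2, hQz, zero_comp]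
  intro r hr
  have h3 := congrArg (fun A => A.coeff r) hPz
  simp only [hP, finsetSum_coeff, coeff_C_mul_X_pow, coeff_zero] at h3
  rw [Finset.sum_ite_eq, if_pos (Finset.mem_range.2 (by omega))] at h3
  exact h3

end

end Pool.Agent.H36.UG
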